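import Pool.Agent.W2helper29.RK.PFormD

/-!
# Abundance for the images of fibrations on which the regular forms come from the base

MP_97d78d_ag, Q1, for projective manifolds, in any dimension.

Let `V ⇢ X` be a dominant rational map of varieties over `ℂ` with irreducible general fibres of
dimension `g ≥ 1`, `m = dim X`, and let `V ⇢ W` be a dominant rational map of finite degree to a
variety `W` of dimension `n = m + g`. Nothing is assumed about this map: it need not be a quotient by
a group, and it has no relation to the fibration. Let `X ⇢ X_i`, `i = 1, …, k`, be rational maps to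
varieties of dimension `p_i` such that `X ⇢ X_1 × … × X_k` is generically finite onto its image, and
let `d_i` be the degree over `W` of the image of `V` in `W × X_i`, and `d` the degree over `W` of the
image of `V` in `W × X`. Suppose that

* every regular `p_i`-form on (the smooth projective models of) `V` comes from `X`, that is, it
  vanishes if one of its arguments is tangent to the fibres of `V ⇢ X`, `i = 1, …, k`;
* the canonical forms of `X_i` separate `d_i` general points, `i = 1, …, k`;
* the canonical forms of `X` separate `2 d` general points.

Then:

(1) `W` is a fibration too: there is a dominant rational map `W ⇢ Y` with irreducible general fibres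
such that `V ⇢ W ⇢ Y` factors through a generically finite map `X ⇢ Y`, and `Y` is of general type.

(2) Suppose moreover that the relative canonical divisor of `V ⇢ X` is trivial, or anti-effective, up
to multiples (`TrivialFibration`), or that `V = X × F` with a log Calabi-Yau variety `F`
(`LogCalabiYau`). Then `K_W` is pseudo-effective if and only if `κ(W) ≥ 0`, if and only if
`κ(W) ≥ m`, and always `κ(W) ≤ m`. If `W` is a normal projective variety with canonical
singularities, for instance a projective manifold, and `K_W` is nef, then `κ(W) = m`, `W ⇢ Y` is the
Iitaka fibration, and the pluricanonical forms of `W` have no zeros along the prime divisors of `W`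
which dominate `Y`: the canonical divisor of the generic fibre is torsion. So `K_W` is semiample
(Kawamata, Lai: the general fibres of the Iitaka fibration are good minimal models; this is not part
of the Lean proof).

Examples. The two main cases are the following; here `V = X × F`, and the first condition holds by
Künneth's formula if `h^0(Ω_X^{p-j}) h^0(Ω_F^j) = 0` for `1 ≤ j ≤ p`, `p = p_i`.

* `k = 1`, `X_1 = X`: a smooth hypersurface `X` of degree at least `m + 1 + 2 d` in the projective
  space, `m ≥ 1`, and `F` with `h^0(Ω_F^m) = 0`: every log Calabi-Yau variety `F` of dimension less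
  than `m`, for example an elliptic curve if `m ≥ 2`, and every Calabi-Yau variety (in the strict
  sense) of dimension different from `m`.
* `X_i` are curves, `p_i = 1`: `X` is a product of curves of gonality greater than `2 d`, or a
  variety which is generically finite over a product of curves of gonality greater than `d_i` and
  with canonical forms which separate `2 d` points, and the irregularity of `V` is that of `X`; for
  `V = X × F` this means that `F` has no regular one-forms: Calabi-Yau, hyperkähler, Enriques
  varieties, and so on.

In both cases there is no condition on the degree of the rational maps from the fibres to the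
projective space, as in `TrivialFibrations.lean` (for the same problem; there the canonical forms of
`X` must separate `δ d` points, `δ` being the smallest degree of a dominant rational map from the
fibre to the projective space, and there is no condition on the forms on `V`).

Proof. Let `ω` be a canonical form on `X_i`. The sum of the conjugates over `ℂ(W)` of its pull-back
is the pull-back to `V` of the trace of a regular `p_i`-form on the image of `V` in `W × X_i`, so it
is a regular `p_i`-form on `V` (`PFormA`, `PFormB`: the wedge product of a form with forms `dy` which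
are regular at a place of `W` is a form of maximal degree, whose trace is regular there). Therefore
it vanishes if one of its arguments is tangent to the fibres of `V ⇢ X`. Since the canonical forms of
`X_i` separate the `d_i` conjugate points, the same holds for each of the conjugates of
`dx_1 ∧ … ∧ dx_p`, `x` being a transcendence basis of the functions on `X_i`; as the conjugates of
`x_1, …, x_p` are independent, the vector fields tangent to the fibres annihilate them. So the
conjugates of the functions on `X_i` are constant on the fibres (`PFormC`). So are the conjugates of the functions on `X`, and the functions on `X`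
which are invariant under conjugation have the full transcendence degree: this is `Y` (`PFormD`). The
rest is as in `TrivialFibrations.lean`: traces of canonical forms separate two points of `Y`
(`Pool/Agent/N277/SX`); the comparison of the pluricanonical forms of `W` with `η` along the
horizontal divisors, and norms of the products of `η` with the pull-backs of the pluricanonical forms
of `Y` (`Hor`, `Vert`, `Kod`, `NefR`).

`K`, `L`, `B`, `N`, `E i` are the function fields of `V`, `W`, `X`, `Y`, `X_i`. `Psef ℂ L n ∅` says
that `K_W` is pseudo-effective, `KodGe ℂ L n ∅ h` that `κ(W) ≥ h` and `GeneralType` that `κ = dim`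
(`Pool/Agent/W602/GT`), for the smooth projective models of `W`. `Pool.Agent.Y172.NormalModel y`,
`Canonical y n`, `CanonicalNef y n`: `y` is the generic point of a normal projective variety with
canonical singularities and nef canonical divisor (`Pool/Agent/Y172/Defs.lean`, `Pool/Agent/R887`);
`NormalModel B z`, `IsPrimeDivisor` are the same over the field `B`
(`Pool/Agent/W2helper29/RK/Defs.lean`).
-/

set_option autoImplicit false
set_option linter.overlappingInstances false
set_option maxHeartbeats 4000000
set_option synthInstance.maxHeartbeats 400000

open FF Module Pool.Agent.W602.GT Pool.Agent.R887 Pool.Agent.W2helper29.RK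
open Pool.Agent.Y172 (OrdEq exists_crd)

namespace Pool.Agent.Results.MP_97d78d_ag.FormsFromBase

/-- **The canonical forms separate `r` general points** of the varieties of dimension `m` with
function field `E`. The embeddings `σ : E → Ω` are the generic points of `X` with coordinates in the
field `Ω`, and `D` is a rational frame of the tangent bundle. At most `r` different such points impose
independent conditions on the canonical forms `ω` which are regular at all prime divisors. -/
def SeparatesPoints (E : Type) [Field E] [Algebra ℂ E] (m r : ℕ) : Prop :=
  ∀ D : Fin m → Derivation ℂ E E, LinearIndependent E D →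
    ∀ (Ω : Type) [Field Ω] [Algebra ℂ Ω] [IsAlgClosed Ω] (A : Finset (E →ₐ[ℂ] Ω)), A.card ≤ r →
    ∀ c : (E →ₐ[ℂ] Ω) → Ω,
    (∀ ω : (Fin m → Derivation ℂ E E) → E, IsPluri 1 ω →
      (∀ P : Place ℂ E, Divisorial m P → RegAt P ω) → ∑ σ ∈ A, c σ * σ (ω D) = 0) →
    ∀ σ ∈ A, c σ = 0

section

variable {K : Type} [Field K] [Algebra ℂ K]

/-- **Every regular `p`-form on `V` comes from `X`.** Here `K` and `B` are the function fields of `V`
and `X`, `n = dim V`. A rational `p`-form on `V` is an alternating form `β` on the rational vector
fields; if it is regular at all prime divisors over `V`, that is, its values on regular vector fields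
are regular, then it vanishes if one of the vector fields is tangent to the fibres of `V ⇢ X`. -/
def ComeFromBase (B : IntermediateField ℂ K) (n p : ℕ) : Prop :=
  ∀ β : (Derivation ℂ K K) [⋀^Fin p]→ₗ[K] K,
    (∀ Q : Place ℂ K, Divisorial n Q → ∀ G : Fin p → Derivation ℂ K K,
      (∀ a, DerReg Q (G a)) → Q.Reg (β G)) →
    ∀ G : Fin p → Derivation ℂ K K, (∃ a, ∀ b ∈ B, G a b = 0) → β G = 0

/-- The degree over `W` of the image of `V` in `W × X`. Here `K`, `L` and `B` are the function fields
of `V`, `W` and `X`. -/
noncomputable def imageDegree (B : IntermediateField ℂ K) (L : Type) [Field L] [Algebra L K] : ℕ :=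
  finrank L (IntermediateField.adjoin L (B : Set K))

/-- **Fibrations `V ⇢ X` with trivial or anti-effective relative canonical divisor**, up to multiples.
`z` is the generic point of a normal projective model of the generic fibre over the function field `B`
of `X`, `m = dim X`, and `η` is an `r`-canonical form on `V`, `r ≥ 1`, without zeros at the prime
divisors of this model. For every `m`-form `ω = f dx` with a logarithmic pole at a prime divisor `P`
over `X` the product of `f ^ r` and `η` (so, of `ω ^ r` and the relative form `η / dx ^ r`) has at most
logarithmic poles at the prime divisors over `P`. -/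
structure TrivialFibration (B : IntermediateField ℂ K) (m g r : ℕ) {t : ℕ} (z : Fin (t + 1) → K)
    (η : (Fin (m + g) → Derivation ℂ K K) → K) : Prop where
  model : NormalModel B z
  pos : 0 < r
  pluri : IsPluri r η
  noZero : ∀ Q : Place B K, IsPrimeDivisor z Q → NoZeroAt (down Q) η
  vert : ∃ x : Fin m → B, IsTranscendenceBasis ℂ x ∧
    ∀ (P : Place ℂ B) (Q : Place ℂ K) (e : ℕ), Over Q P e → Divisorial m P →
      Divisorial (m + g) Q → ∀ f : B, LogAt P (detForm x f) →
        LogAt Q (fun D => algebraMap B K f ^ r * η D)

/-- `z` is the generic point of a normal projective variety `F` of dimension `g` with function field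
`C`, and `θ` is an `r`-canonical form, `r ≥ 1`, without zeros at the prime divisors of `F` and with at
most logarithmic poles at the prime divisors over `F`. That is, for the effective `ℚ`-divisor
`Δ = - div (θ) / r` the pair `(F, Δ)` is log canonical and `r (K_F + Δ)` is trivial. -/
structure LogCalabiYau {C : Type} [Field C] [Algebra ℂ C] (g r : ℕ) {t : ℕ} (z : Fin (t + 1) → C)
    (θ : (Fin g → Derivation ℂ C C) → C) : Prop where
  model : Pool.Agent.Y172.NormalModel z
  pos : 0 < r
  pluri : IsPluri r θ
  ne : ∃ D, θ D ≠ 0
  noZero : ∀ P : Place ℂ C, Pool.Agent.Y172.IsPrimeDivisor z P → NoZeroAt P θ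
  log : ∀ P : Place ℂ C, Divisorial g P → LogAt P θ

/-- The subfield `N` of `L` is the function field of a variety `Y` of general type of dimension `m`, of
which `X` is a covering: `W ⇢ Y` has irreducible general fibres, and `V ⇢ W ⇢ Y` factors through a
generically finite rational map `X ⇢ Y`. Here `K`, `L` and `B` are the function fields of `V`, `W`
and `X`. -/
def IsImage (B : IntermediateField ℂ K) {L : Type} [Field L] [Algebra ℂ L] [Algebra L K]
    [IsScalarTower ℂ L K] (N : IntermediateField ℂ L) (m : ℕ) : Prop :=
  (∀ z : L, IsAlgebraic N z → z ∈ N) ∧ (∀ z : L, z ∈ N ↔ algebraMap L K z ∈ B) ∧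
    (∀ z ∈ B, IsAlgebraic N z) ∧ GeneralType ℂ N m

end

/-- **Abundance** for the varieties `W` of dimension `n` with function field `L`, the Iitaka fibration
being `W ⇢ Y` with a variety `Y` of dimension `m` with function field `N`: `K_W` is pseudo-effective if
and only if `κ(W) ≥ 0`, if and only if `κ(W) ≥ m`, and `κ(W) ≤ m`; the ratios of pluricanonical forms
are functions on `Y`. If `y` is the generic point of a normal projective model with canonical
singularities and nef canonical divisor then `κ(W) = m`, and the pluricanonical forms `Ω ≠ 0` have no
zeros at the prime divisors which dominate `Y`. -/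
def Abundance (L : Type) [Field L] [Algebra ℂ L] (N : IntermediateField ℂ L) (n m : ℕ) : Prop :=
  [Psef ℂ L n (fun _ => False), KodGe ℂ L n (fun _ => False) 0,
    KodGe ℂ L n (fun _ => False) m].TFAE ∧ ¬ KodGe ℂ L n (fun _ => False) (m + 1) ∧
  (∀ (M : ℕ) (Ω Ω' : (Fin n → Derivation ℂ L L) → L), IsPluri M Ω → IsPluri M Ω' →
    (∀ P : Place ℂ L, Divisorial n P → RegAt P Ω ∧ RegAt P Ω') →
    ∀ D, Ω' D ≠ 0 → Ω D / Ω' D ∈ N) ∧
  ∀ (s : ℕ) (y : Fin (s + 1) → L), Pool.Agent.Y172.NormalModel y → Canonical y n →
    CanonicalNef y n → KodGe ℂ L n (fun _ => False) m ∧
    ∀ (M : ℕ) (Ω : (Fin n → Derivation ℂ L L) → L), IsPluri M Ω →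
      (∀ P : Place ℂ L, Divisorial n P → RegAt P Ω) → (∃ D, Ω D ≠ 0) →
      ∀ P : Place ℂ L, Pool.Agent.Y172.IsPrimeDivisor y P →
        (∀ c : N, c ≠ 0 → P.ord (c : L) = 0) → OrdEq P Ω 0

/-- **Images of fibrations on which the regular forms come from the base.** Let `K`, `B` and `L` be
the function fields of varieties `V`, `X` and `W`, with a fibration `V ⇢ X` with fibres of dimension
`g ≥ 1` and a dominant rational map `V ⇢ W` of finite degree, `m = dim X`. Let `E i` be the function
fields of varieties `X_i` of dimension `p i` such that `X` is generically finite over its image in the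
product of the `X_i`. Suppose that the regular `p i`-forms on `V` come from `X`, that the canonical
forms of `X_i` separate as many points as the degree over `W` of the image of `V` in `W × X_i`, and
the canonical forms of `X` twice as many points as the degree over `W` of the image of `V` in
`W × X`.

Then there is a fibration `W ⇢ Y` over a variety of general type of dimension `m` which is dominated
by `X`, and if the relative canonical divisor of `V ⇢ X` is trivial or anti-effective, or `V = X × F`
with a log Calabi-Yau variety `F` of dimension `g`, then abundance holds for `W`, with the Iitaka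
fibration `W ⇢ Y`. -/
theorem result {K : Type} [Field K] [Algebra ℂ K] [Algebra.EssFiniteType ℂ K]
    (B : IntermediateField ℂ K) [Algebra.EssFiniteType ℂ B] {m g : ℕ}
    (hB : Algebra.trdeg ℂ B = m) (hgK : Algebra.trdeg B K = g) (hg : 1 ≤ g)
    (hcl : ∀ z : K, IsAlgebraic B z → z ∈ B) (L : Type) [Field L] [Algebra ℂ L] [Algebra L K]
    [IsScalarTower ℂ L K] [FiniteDimensional L K] {k : ℕ} (E : Fin k → IntermediateField ℂ K)
    [∀ i, Algebra.EssFiniteType ℂ (E i)] (p : Fin k → ℕ) (hE : ∀ i, Algebra.trdeg ℂ (E i) = p i)
    (hBE : ∀ z ∈ B, IsAlgebraic (⨆ i, E i : IntermediateField ℂ K) z)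
    (hforms : ∀ i, ComeFromBase B (m + g) (p i))
    (hsep : ∀ i, SeparatesPoints (E i) (p i) (imageDegree (E i) L))
    (hX : SeparatesPoints B m (2 * imageDegree B L)) :
    ∃ N : IntermediateField ℂ L, IsImage B N m ∧
      (∀ (t r : ℕ) (z : Fin (t + 1) → K) (η : (Fin (m + g) → Derivation ℂ K K) → K),
        TrivialFibration B m g r z η → Abundance L N (m + g) m) ∧
      ∀ (C : IntermediateField ℂ K) (t r : ℕ) (z : Fin (t + 1) → C)
        (θ : (Fin g → Derivation ℂ C C) → C), B ⊔ C = ⊤ → B.LinearDisjoint C →
        Algebra.trdeg ℂ C = g → LogCalabiYau g r z θ → Abundance L N (m + g) m := by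
  have hK : Algebra.trdeg ℂ K = (m + g : ℕ) := by
    have h1 := trdeg_add_eq ℂ B (A := K)
    rw [hB, hgK] at h1
    rw [← h1]
    push_cast
    rfl
  obtain ⟨N, hN1, hN2, hN3, hN4, hN5⟩ := form_struct (L := L) hK hB hgK hcl hE hBE
    (fun i => hforms i) (fun i => hsep i) hX
  have main : ∀ (t r : ℕ) (z : Fin (t + 1) → K) (η : (Fin (m + g) → Derivation ℂ K K) → K),
      TrivialFibration B m g r z η → Abundance L N (m + g) m := by
    intro t r z η h
    obtain ⟨x, hx, hv⟩ := h.vert
    exact main_fib rfl h.model hB hgK hg hK hcl hx h.pluri h.pos h.noZero hv
      hN2 hN3 hN4 hN5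
  refine ⟨N, ⟨hN1, hN2, hN3, hN4, ?_⟩, main, fun C t r z θ hsup hdis hC h => ?_⟩
  · obtain ⟨M, hM, ω, hω, hD⟩ := hN5
    exact ⟨M, hM, ω, fun j => (hω j).1, fun P hP j => (hω j).2.2 P hP fun h => h, hD⟩
  · have hessC : Algebra.EssFiniteType ℂ C := h.model.ess
    obtain ⟨x, Dx, hx, hDx⟩ := exists_crd hB
    obtain ⟨y, Dy, hy, hDy⟩ := exists_crd hC
    exact main t r _ (prodForm r x y (θ Dy))
      { model := model_prod hsup hdis hB hC h.model
        pos := h.pos
        pluri := prodForm_pluri x y (θ Dy)
        noZero := fun Q hQ => noZero_prod hsup hdis hx hDx hy hDy h.pluri h.ne h.noZero hQ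
        vert := ⟨x, hx, fun P Q e hQP hP hQ f hf =>
          vert_prod hsup hdis hB hC hK hy hDy h.pluri h.log hQP hP hQ hf⟩ }

end Pool.Agent.Results.MP_97d78d_ag.FormsFromBase
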