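import Pool.Agent.W2helper29.RK.PInvC

/-!
# Abundance for the images of fibrations with invariant regular forms, and of `X × F`

MP_97d78d_ag, Q1, for projective manifolds, in any dimension.

Let `V ⇢ V' ⇢ X` be dominant rational maps of varieties over `ℂ` with irreducible general fibres,
`m = dim X`, `g = dim V - dim X ≥ 1`, and let `Γ` be a set of birational automorphisms of `V'` such
that all `Γ`-invariant rational functions on `V'` come from `X`. Let `V ⇢ W` be a dominant rational
map of finite degree to a variety `W` of dimension `n = m + g`. Nothing is assumed about this map: it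
need not be a quotient by a group, and it has no relation to the fibrations. Let `X ⇢ X_i`,
`i = 1, …, k`, be rational maps to varieties of dimension `p_i` such that `X ⇢ X_1 × … × X_k` is
generically finite onto its image, and let `d_i` (`d`) be the degree over `W` of the image of `V` in
`W × X_i` (`W × X`). Suppose that

* every regular `p_i`-form on (the smooth projective models of) `V` is the pull-back of a
  `Γ`-invariant `p_i`-form on `V'`, `i = 1, …, k`;
* the canonical forms of `X_i` separate `2 d_i` general points, `i = 1, …, k`, and the canonical forms
  of `X` separate `2 d` general points.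

Then:

(1) `W` is a fibration too: there is a dominant rational map `W ⇢ Y` with irreducible general fibres
such that `V ⇢ W ⇢ Y` factors through a generically finite map `X ⇢ Y`, and `Y` is of general type.

(2) Suppose moreover that the relative canonical divisor of `V ⇢ X` is trivial, or anti-effective, up
to multiples (`TrivialFibration`), or that `V = X × F` with a log Calabi-Yau variety `F`
(`LogCalabiYau`). Then `K_W` is pseudo-effective if and only if `κ(W) ≥ 0`, if and only if
`κ(W) ≥ m`, and always `κ(W) ≤ m`. If `W` is a normal projective variety with canonical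
singularities, for instance a projective manifold, and `K_W` is nef, then `κ(W) = m`, `W ⇢ Y` is the
Iitaka fibration, and the pluricanonical forms of `W` have no zeros along the prime divisors of `W`
which dominate `Y`: the canonical divisor of the generic fibre is torsion. So `K_W` is semiample
(Kawamata, Lai: the general fibres of the Iitaka fibration are good minimal models; this is not part
of the Lean proof).

Examples.

* `V = X × F`, `V' = X × Alb (F)`, where the Albanese map of `F` is surjective with irreducible
  general fibres, and `Γ` is the group of the translations of the Albanese variety: this holds if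
  `κ(F) = 0` (Kawamata) and for log Calabi-Yau varieties (Zhang). The one-forms on `X × F` are the
  sums of one-forms on `X` and invariant one-forms on `Alb (F)`. So if `X` is a product of curves of
  gonality greater than `2 d` (or is generically finite over a product of curves `X_i` of gonality
  greater than `2 d_i`, and has canonical forms which separate `2 d` points) then the theorem applies
  to every log Calabi-Yau variety `F`, for example to every projective manifold `F` with `c_1 (F) = 0`
  in `H^2 (F, ℝ)`: there is no condition on the Hodge numbers of `F`, or on the degree of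
  irrationality of `F`. (These facts about `F` are not part of the Lean proof.)
* `V` has a birational action of a connected algebraic group `Γ` such that `X = V / Γ`, and `V' = V`:
  the regular forms on `V` are `Γ`-invariant since `Γ` acts trivially on the cohomology. For example
  `V = X × F`, `F` an abelian variety, `k = 1`, `X_1 = X` a smooth hypersurface of degree at least
  `m + 1 + 2 d` in the projective space, or any variety with canonical forms which separate `2 d`
  points.
* `Γ = ∅`, `V' = X`: the regular forms come from `X`, see `FormsFromBase.lean` for the same problem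
  (where the canonical forms of `X_i` need to separate only `d_i` points).

Proof. Let `ω` be a canonical form on `X_i`. The sum of the conjugates over `ℂ(W)` of its pull-back
is a regular `p_i`-form on `V` (`PFormA`, `PFormB`), so it comes from a `Γ`-invariant form on `V'`. As
in `FormsFromBase.lean` the conjugates of the functions on `X_i` are constant on the fibres of
`V ⇢ V'` (`PFormC`, `PInvB`): they are `d_i` points `σ` of `X_i` with coordinates in the algebraic
closure of `ℂ(V')`. Let `γ` be an extension of an element of `Γ` to this closure. Since the sum of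
the conjugates of `ω` is invariant, the sum of the pull-backs of `ω` under the points `σ` is equal to
the sum of the pull-backs under the points `γ σ`. Since the canonical forms of `X_i` separate `2 d_i`
points, and the pull-backs of the forms of maximal degree under the points are not zero, `γ` permutes
the `d_i` points (`PInvA`). So the coefficients of the minimal polynomials over `ℂ(W)` of the
functions on `X_i` are `Γ`-invariant functions on `V'` and come from `X`; they are functions on `W`
which come from `X`, and the functions of this kind form the function field of `Y` (`PInvC`). The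
rest is as in `TrivialFibrations.lean`: traces of canonical forms separate two points of `Y`
(`Pool/Agent/N277/SX`); the comparison of the pluricanonical forms of `W` with `η` along the
horizontal divisors, and norms of the products of `η` with the pull-backs of the pluricanonical forms
of `Y` (`Hor`, `Vert`, `Kod`, `NefR`).

For an abelian variety `F` and a curve `X` the rigidity is the classical fact that `W_d (X)` contains
no abelian variety of positive dimension if the gonality of `X` is greater than `2 d` (Abramovich,
Harris), and the bound `2 d` is the right one: double covers of elliptic curves have gonality at most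
`4`.

`K`, `M`, `B`, `L`, `N`, `E i` are the function fields of `V`, `V'`, `X`, `W`, `Y`, `X_i`.
`Psef ℂ L n ∅` says that `K_W` is pseudo-effective, `KodGe ℂ L n ∅ h` that `κ(W) ≥ h` and
`GeneralType` that `κ = dim` (`Pool/Agent/W602/GT`), for the smooth projective models of `W`.
`Pool.Agent.Y172.NormalModel y`, `Canonical y n`, `CanonicalNef y n`: `y` is the generic point of a
normal projective variety with canonical singularities and nef canonical divisor
(`Pool/Agent/Y172/Defs.lean`, `Pool/Agent/R887`); `NormalModel B z`, `IsPrimeDivisor` are the same over
the field `B` (`Pool/Agent/W2helper29/RK/Defs.lean`).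
-/

set_option autoImplicit false
set_option linter.overlappingInstances false
set_option maxHeartbeats 4000000
set_option synthInstance.maxHeartbeats 400000

open FF Module Pool.Agent.W602.GT Pool.Agent.R887 Pool.Agent.W2helper29.RK
open Pool.Agent.Y172 (OrdEq exists_crd)

namespace Pool.Agent.Results.MP_97d78d_ag.InvariantForms

/-- **The canonical forms separate `r` general points** of the varieties of dimension `m` with
function field `E`. The embeddings `σ : E → Ω` are the generic points of `X` with coordinates in the
field `Ω`, and `D` is a rational frame of the tangent bundle. At most `r` different such points impose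
independent conditions on the canonical forms `ω` which are regular at all prime divisors. -/
def SeparatesPoints (E : Type) [Field E] [Algebra ℂ E] (m r : ℕ) : Prop :=
  ∀ D : Fin m → Derivation ℂ E E, LinearIndependent E D →
    ∀ (Ω : Type) [Field Ω] [Algebra ℂ Ω] [IsAlgClosed Ω] (A : Finset (E →ₐ[ℂ] Ω)), A.card ≤ r →
    ∀ c : (E →ₐ[ℂ] Ω) → Ω,
    (∀ ω : (Fin m → Derivation ℂ E E) → E, IsPluri 1 ω →
      (∀ P : Place ℂ E, Divisorial m P → RegAt P ω) → ∑ σ ∈ A, c σ * σ (ω D) = 0) →
    ∀ σ ∈ A, c σ = 0

/-- Rational `p`-forms on the varieties with function field `F`: alternating forms on the rational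
vector fields. -/
abbrev Form (F : Type) [Field F] [Algebra ℂ F] (p : ℕ) : Type :=
  (Derivation ℂ F F) [⋀^Fin p]→ₗ[F] F

/-- The form `β` on a variety of dimension `n` is regular at all prime divisors over the variety: its
values on regular vector fields are regular. -/
def Form.Regular {F : Type} [Field F] [Algebra ℂ F] {p : ℕ} (n : ℕ) (β : Form F p) : Prop :=
  ∀ Q : Place ℂ F, Divisorial n Q → ∀ G : Fin p → Derivation ℂ F F,
    (∀ a, DerReg Q (G a)) → Q.Reg (β G)

/-- The form `β` is invariant under the birational automorphism `γ`: here `D'` are the images under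
`γ` of the vector fields `D`. -/
def Form.Invariant {F : Type} [Field F] [Algebra ℂ F] {p : ℕ} (γ : F ≃ₐ[ℂ] F) (β : Form F p) :
    Prop :=
  ∀ D D' : Fin p → Derivation ℂ F F, (∀ a z, D' a (γ z) = γ (D a z)) → β D' = γ (β D)

/-- The form `β` on the variety with function field `K` is the pull-back of the form `β'` on the
variety with function field `F`: `β (G_1, …, G_p) = β' (D_1, …, D_p)` if the vector fields `G_a` lift
the vector fields `D_a`. -/
def Form.IsPullback {K F : Type} [Field K] [Field F] [Algebra ℂ K] [Algebra ℂ F] [Algebra F K]
    {p : ℕ} (β : Form K p) (β' : Form F p) : Prop :=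
  ∀ (G : Fin p → Derivation ℂ K K) (D : Fin p → Derivation ℂ F F),
    (∀ a z, G a (algebraMap F K z) = algebraMap F K (D a z)) → β G = algebraMap F K (β' D)

section

variable {K : Type} [Field K] [Algebra ℂ K]

/-- `V ⇢ X` is a dominant rational map to a variety of dimension `m` with irreducible general fibres of
dimension `g ≥ 1`. Here `K` and `B` are the function fields of `V` and `X`. -/
structure Fibration (B : IntermediateField ℂ K) (m g : ℕ) : Prop where
  dim : Algebra.trdeg ℂ B = m
  fibre : Algebra.trdeg B K = g
  pos : 1 ≤ g
  closed : ∀ z : K, IsAlgebraic B z → z ∈ B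

/-- `E i` are the function fields of varieties `X_i` of dimension `p i`, and `X` is generically finite
over its image in the product of the `X_i`: the functions on `X` are algebraic over the field which is
generated by the functions on the `X_i`. -/
structure Factors (B : IntermediateField ℂ K) {k : ℕ} (E : Fin k → IntermediateField ℂ K)
    (p : Fin k → ℕ) : Prop where
  ess : ∀ i, Algebra.EssFiniteType ℂ (E i)
  dim : ∀ i, Algebra.trdeg ℂ (E i) = p i
  alg : ∀ z ∈ B, IsAlgebraic (⨆ i, E i : IntermediateField ℂ K) z

/-- `V = X × F` with a variety `F` of dimension `g`. Here `K`, `B` and `C` are the function fields of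
`V`, `X` and `F`. -/
def IsProduct (B C : IntermediateField ℂ K) (g : ℕ) : Prop :=
  B ⊔ C = ⊤ ∧ B.LinearDisjoint C ∧ Algebra.trdeg ℂ C = g

/-- `V ⇢ V'` is a dominant rational map with irreducible general fibres, and `Γ` is a set of
birational automorphisms of `V'` such that the `Γ`-invariant functions on `V'` come from `X`. Here
`K`, `M` and `B` are the function fields of `V`, `V'` and `X`. -/
def ActsOver (B M : IntermediateField ℂ K) (Γ : Set (M ≃ₐ[ℂ] M)) : Prop :=
  (∀ z : K, IsAlgebraic M z → z ∈ M) ∧ ∀ f : M, (∀ γ ∈ Γ, γ f = f) → (f : K) ∈ B

/-- **The regular `p`-forms on `V` are pull-backs of `Γ`-invariant forms on `V'`.** Here `K` and `M`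
are the function fields of `V` and `V'`, and `n = dim V`. -/
def RegularFormsInvariant (M : IntermediateField ℂ K) (Γ : Set (M ≃ₐ[ℂ] M)) (n p : ℕ) : Prop :=
  ∀ β : Form K p, β.Regular n → ∃ β' : Form M p, β.IsPullback β' ∧ ∀ γ ∈ Γ, β'.Invariant γ

/-- The degree over `W` of the image of `V` in `W × X`. Here `K`, `L` and `B` are the function fields
of `V`, `W` and `X`. -/
noncomputable def imageDegree (B : IntermediateField ℂ K) (L : Type) [Field L] [Algebra L K] : ℕ :=
  finrank L (IntermediateField.adjoin L (B : Set K))

/-- **Fibrations `V ⇢ X` with trivial or anti-effective relative canonical divisor**, up to multiples.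
`z` is the generic point of a normal projective model of the generic fibre over the function field `B`
of `X`, `m = dim X`, and `η` is an `r`-canonical form on `V`, `r ≥ 1`, without zeros at the prime
divisors of this model. For every `m`-form `ω = f dx` with a logarithmic pole at a prime divisor `P`
over `X` the product of `f ^ r` and `η` (so, of `ω ^ r` and the relative form `η / dx ^ r`) has at most
logarithmic poles at the prime divisors over `P`. -/
structure TrivialFibration (B : IntermediateField ℂ K) (m g r : ℕ) {t : ℕ} (z : Fin (t + 1) → K)
    (η : (Fin (m + g) → Derivation ℂ K K) → K) : Prop where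
  model : NormalModel B z
  pos : 0 < r
  pluri : IsPluri r η
  noZero : ∀ Q : Place B K, IsPrimeDivisor z Q → NoZeroAt (down Q) η
  vert : ∃ x : Fin m → B, IsTranscendenceBasis ℂ x ∧
    ∀ (P : Place ℂ B) (Q : Place ℂ K) (e : ℕ), Over Q P e → Divisorial m P →
      Divisorial (m + g) Q → ∀ f : B, LogAt P (detForm x f) →
        LogAt Q (fun D => algebraMap B K f ^ r * η D)

/-- `z` is the generic point of a normal projective variety `F` of dimension `g` with function field
`C`, and `θ` is an `r`-canonical form, `r ≥ 1`, without zeros at the prime divisors of `F` and with at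
most logarithmic poles at the prime divisors over `F`. That is, for the effective `ℚ`-divisor
`Δ = - div (θ) / r` the pair `(F, Δ)` is log canonical and `r (K_F + Δ)` is trivial. -/
structure LogCalabiYau {C : Type} [Field C] [Algebra ℂ C] (g r : ℕ) {t : ℕ} (z : Fin (t + 1) → C)
    (θ : (Fin g → Derivation ℂ C C) → C) : Prop where
  model : Pool.Agent.Y172.NormalModel z
  pos : 0 < r
  pluri : IsPluri r θ
  ne : ∃ D, θ D ≠ 0
  noZero : ∀ P : Place ℂ C, Pool.Agent.Y172.IsPrimeDivisor z P → NoZeroAt P θ
  log : ∀ P : Place ℂ C, Divisorial g P → LogAt P θ

/-- The subfield `N` of `L` is the function field of a variety `Y` of general type of dimension `m`, of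
which `X` is a covering: `W ⇢ Y` has irreducible general fibres, and `V ⇢ W ⇢ Y` factors through a
generically finite rational map `X ⇢ Y`. Here `K`, `L` and `B` are the function fields of `V`, `W`
and `X`. -/
def IsImage (B : IntermediateField ℂ K) {L : Type} [Field L] [Algebra ℂ L] [Algebra L K]
    [IsScalarTower ℂ L K] (N : IntermediateField ℂ L) (m : ℕ) : Prop :=
  (∀ z : L, IsAlgebraic N z → z ∈ N) ∧ (∀ z : L, z ∈ N ↔ algebraMap L K z ∈ B) ∧
    (∀ z ∈ B, IsAlgebraic N z) ∧ GeneralType ℂ N m

end

/-- **Abundance** for the varieties `W` of dimension `n` with function field `L`, the Iitaka fibration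
being `W ⇢ Y` with a variety `Y` of dimension `m` with function field `N`: `K_W` is pseudo-effective if
and only if `κ(W) ≥ 0`, if and only if `κ(W) ≥ m`, and `κ(W) ≤ m`; the ratios of pluricanonical forms
are functions on `Y`. If `y` is the generic point of a normal projective model with canonical
singularities and nef canonical divisor then `κ(W) = m`, and the pluricanonical forms `Ω ≠ 0` have no
zeros at the prime divisors which dominate `Y`. -/
def Abundance (L : Type) [Field L] [Algebra ℂ L] (N : IntermediateField ℂ L) (n m : ℕ) : Prop :=
  [Psef ℂ L n (fun _ => False), KodGe ℂ L n (fun _ => False) 0,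
    KodGe ℂ L n (fun _ => False) m].TFAE ∧ ¬ KodGe ℂ L n (fun _ => False) (m + 1) ∧
  (∀ (M : ℕ) (Ω Ω' : (Fin n → Derivation ℂ L L) → L), IsPluri M Ω → IsPluri M Ω' →
    (∀ P : Place ℂ L, Divisorial n P → RegAt P Ω ∧ RegAt P Ω') →
    ∀ D, Ω' D ≠ 0 → Ω D / Ω' D ∈ N) ∧
  ∀ (s : ℕ) (y : Fin (s + 1) → L), Pool.Agent.Y172.NormalModel y → Canonical y n →
    CanonicalNef y n → KodGe ℂ L n (fun _ => False) m ∧
    ∀ (M : ℕ) (Ω : (Fin n → Derivation ℂ L L) → L), IsPluri M Ω →
      (∀ P : Place ℂ L, Divisorial n P → RegAt P Ω) → (∃ D, Ω D ≠ 0) →
      ∀ P : Place ℂ L, Pool.Agent.Y172.IsPrimeDivisor y P →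
        (∀ c : N, c ≠ 0 → P.ord (c : L) = 0) → OrdEq P Ω 0

/-- **Images of fibrations with invariant regular forms.** Let `K`, `M`, `B` and `L` be the function
fields of varieties `V`, `V'`, `X` and `W`, with fibrations `V ⇢ V'` and `V ⇢ X`, the fibres of
`V ⇢ X` having dimension `g ≥ 1`, and a dominant rational map `V ⇢ W` of finite degree, `m = dim X`.
Let `Γ` be a set of birational automorphisms of `V'` such that the invariant functions come from `X`.
Let `E i` be the function fields of varieties `X_i` of dimension `p i` such that `X` is generically
finite over its image in the product of the `X_i`. Suppose that the regular `p i`-forms on `V` are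
pull-backs of `Γ`-invariant forms on `V'`, and that the canonical forms of `X_i` (of `X`) separate
twice as many points as the degree over `W` of the image of `V` in `W × X_i` (in `W × X`).

Then there is a fibration `W ⇢ Y` over a variety of general type of dimension `m` which is dominated
by `X`, and if the relative canonical divisor of `V ⇢ X` is trivial or anti-effective, or `V = X × F`
with a log Calabi-Yau variety `F` of dimension `g`, then abundance holds for `W`, with the Iitaka
fibration `W ⇢ Y`. -/
theorem result {K : Type} [Field K] [Algebra ℂ K] [Algebra.EssFiniteType ℂ K]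
    (B : IntermediateField ℂ K) [Algebra.EssFiniteType ℂ B] {m g : ℕ} (hB : Fibration B m g)
    (M : IntermediateField ℂ K) (Γ : Set (M ≃ₐ[ℂ] M)) (hΓ : ActsOver B M Γ)
    (L : Type) [Field L] [Algebra ℂ L] [Algebra L K] [IsScalarTower ℂ L K]
    [FiniteDimensional L K] {k : ℕ} (E : Fin k → IntermediateField ℂ K) (p : Fin k → ℕ)
    (hE : Factors B E p) (hforms : ∀ i, RegularFormsInvariant M Γ (m + g) (p i))
    (hsep : ∀ i, SeparatesPoints (E i) (p i) (2 * imageDegree (E i) L))
    (hX : SeparatesPoints B m (2 * imageDegree B L)) :
    ∃ N : IntermediateField ℂ L, IsImage B N m ∧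
      (∀ (t r : ℕ) (z : Fin (t + 1) → K) (η : (Fin (m + g) → Derivation ℂ K K) → K),
        TrivialFibration B m g r z η → Abundance L N (m + g) m) ∧
      ∀ (C : IntermediateField ℂ K) (t r : ℕ) (z : Fin (t + 1) → C)
        (θ : (Fin g → Derivation ℂ C C) → C), IsProduct B C g → LogCalabiYau g r z θ →
        Abundance L N (m + g) m := by
  obtain ⟨hB, hgK, hg, hcl⟩ := hB
  obtain ⟨hclM, hΓ⟩ := hΓ
  obtain ⟨hess, hE, hBE⟩ := hE
  have hK : Algebra.trdeg ℂ K = (m + g : ℕ) := by
    have h1 := trdeg_add_eq ℂ B (A := K)
    rw [hB, hgK] at h1
    rw [← h1]
    push_cast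
    rfl
  have hadd := trdeg_add_eq ℂ M (A := K)
  rw [hK] at hadd
  obtain ⟨m', hm'⟩ : ∃ m' : ℕ, Algebra.trdeg ℂ M = m' := by
    apply Cardinal.lt_aleph0.1
    refine lt_of_le_of_lt ?_ (Cardinal.natCast_lt_aleph0 (n := m + g))
    rw [← hadd]
    exact self_le_add_right _ _
  obtain ⟨g', hg'⟩ : ∃ g' : ℕ, Algebra.trdeg M K = g' := by
    apply Cardinal.lt_aleph0.1
    refine lt_of_le_of_lt ?_ (Cardinal.natCast_lt_aleph0 (n := m + g))
    rw [← hadd]
    exact self_le_add_left _ _
  obtain ⟨N, hN1, hN2, hN3, hN4, hN5⟩ := inv_struct (L := L) hK hB hcl hm' hg' hclM hΓ hE hBE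
    (fun i β hβ => by
      obtain ⟨β', h1, h2⟩ := hforms i β hβ
      exact ⟨β', h1, h2⟩) (fun i => hsep i) hX
  have main : ∀ (t r : ℕ) (z : Fin (t + 1) → K) (η : (Fin (m + g) → Derivation ℂ K K) → K),
      TrivialFibration B m g r z η → Abundance L N (m + g) m := by
    intro t r z η h
    obtain ⟨x, hx, hv⟩ := h.vert
    exact main_fib rfl h.model hB hgK hg hK hcl hx h.pluri h.pos h.noZero hv
      hN2 hN3 hN4 hN5
  refine ⟨N, ⟨hN1, hN2, hN3, hN4, ?_⟩, main, fun C t r z θ ⟨hsup, hdis, hC⟩ h => ?_⟩
  · obtain ⟨M, hM, ω, hω, hD⟩ := hN5
    exact ⟨M, hM, ω, fun j => (hω j).1, fun P hP j => (hω j).2.2 P hP fun h => h, hD⟩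
  · have hessC : Algebra.EssFiniteType ℂ C := h.model.ess
    obtain ⟨x, Dx, hx, hDx⟩ := exists_crd hB
    obtain ⟨y, Dy, hy, hDy⟩ := exists_crd hC
    exact main t r _ (prodForm r x y (θ Dy))
      { model := model_prod hsup hdis hB hC h.model
        pos := h.pos
        pluri := prodForm_pluri x y (θ Dy)
        noZero := fun Q hQ => noZero_prod hsup hdis hx hDx hy hDy h.pluri h.ne h.noZero hQ
        vert := ⟨x, hx, fun P Q e hQP hP hQ f hf =>
          vert_prod hsup hdis hB hC hK hy hDy h.pluri h.log hQP hP hQ hf⟩ }

end Pool.Agent.Results.MP_97d78d_ag.InvariantForms
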