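import Pool.Agent.W2helper38.NU.Tow

/-!
# Abundance for the images of towers over varieties with effective or trivial anticanonical divisor

MP_97d78d_ag, Q1, for projective manifolds, in any dimension `n`.

Let `V 0 ⇢ V 1 ⇢ ... ⇢ V k` be a tower (`Mixed`, `Pool/Agent/W2helper38/NU/Tow.lean`) of generically
finite rational maps of varieties of dimension `n ≥ 1`. The last variety `V k` (`Base`) is uniruled, or
it is dominated, with finite degree, by a normal projective variety `V'`, with arbitrary
singularities, such that some multiple `- r K_V'`, `r ≥ 1`, is effective or zero; for instance `V k` is
any variety with a generically finite dominant rational map from an abelian variety, a Calabi-Yau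
variety, a hyperkähler manifold, a product of such varieties, or a normal hypersurface of degree at
most `n + 2` in the projective space, with any singularities. Each step `V i ⇢ V (i + 1)` is of one of
the following kinds. Let `b i` be its degree and `s i = s / (b 0 ⋯ b (i - 1))`.

* `torus`: `V i` is a component of a nondegenerate complete intersection in a torus, with arbitrary
  Newton polytopes, `V (i + 1)` is birational to its image under monomials `t l = x ^ (w l)`, where
  `ℂ(V i) = ℂ(V (i + 1))(y)` for a monomial `y = x ^ v`, and there are columns for `s i` in the Fine
  interior: for each divisor `c < b i` of `b i` an `M` with `s i ≤ c (M + 1)` such that the `u + j v`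
  and the `u + j v + M w l` are in the Fine interior for all `j < c`.
* `lines`: `V i` is (a component of) a smooth complete intersection, of any codimension `q`, of
  hypersurfaces of multidegrees `(d_{l,a})` in the product of the projective lines with the
  coordinates `x_a`, `a = 1, ..., n + q`, with `Σ_l d_{l,a} = m_a + 2`, `V (i + 1)` is birational to
  its image under the projection which forgets one coordinate `x_{a0}`, and `s i ≤ m_a + 1` for all
  `a ≠ a0`.

Let `V 0 ⇢ X` be any dominant rational map of degree `r`; nothing is assumed about the map (it need not
be a quotient by a group and has no relation to the tower) or about `X`.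

(1) If the above holds for `s = r` then `K_X` is pseudo-effective if and only if `κ(X) ≥ 0` (for the
smooth projective models of `X`).

(2) If the above holds for `s = 2 r` and `K_X` is pseudo-effective then `X` is of general type or
`κ(X) = 0`.

(3) If the above holds for `s = 2 r`, and `X` is a normal projective variety with canonical
singularities, for instance a projective manifold, and nef canonical divisor, then `K_X` is big or
torsion: `M K_X` is trivial for some `M ≥ 1`. So `K_X` is semiample (if it is nef and big, by the
base point free theorem, which is not part of the Lean proof).

Proof. If `X` is not of general type (or, for (1), `p_g(X) = 0`) and `V i ⇢ X` is a rational map then it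
factors through `V i ⇢ V (i + 1)` (traces of residue forms, `Pool/Agent/R882`). So `X` is dominated by
`V k`, and either it is uniruled or there is a dominant rational map `f : V' ⇢ X` of finite degree. Let
`η` be an `r`-canonical form without zeros at the prime divisors of `V'`. If `σ` is a section of
`j (q K_X + A)` then `(f^* σ) ^ r / η ^ (j q)` is a rational function on `V'` with poles at most
`j r f^* A`. The orders of such functions at a divisor `E` over `V'` are at most `C j`, by the product
formula on a curve over a function field of dimension `n - 1`, and at least `- C j`, because `V'` is
normal; here `C` does not depend on `q`. Since `q` can be arbitrarily large it follows that `η` is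
regular along `E` as a section of `f^* (r K_X)`. So the symmetric functions of its conjugates give a
section of a multiple of `K_X`, and `f^*` of this section is a constant times a power of `η`. If `K_X`
is nef then `q K_X + A` is generated by sections, and the lower bound `- C j` shows in the same way
that this section has no zeros.

The starting files on abundance for towers (`MP_813db1_ag.ImagesOfTowers` and others) have uniruled
last varieties.

`K` and `L` are the function fields of `V 0` and `X`. `Psef ℂ L n ∅` says that `K_X` is
pseudo-effective, `KodGe ℂ L n ∅ h` that `κ(X) ≥ h`, `GeneralType` that `κ(X) = n`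
(`Pool/Agent/W602/GT`), for the smooth projective models of `X`; `NormalModel y`, `Canonical y n`,
`CanonicalNef y n`: `y` is the generic point of a normal projective variety with canonical
singularities and nef canonical divisor (`Pool/Agent/Y172/Defs.lean`, `Pool/Agent/R887`).
-/

set_option autoImplicit false
set_option linter.overlappingInstances false

open FF Module Pool.Agent.W602.GT Pool.Agent.Y172 Pool.Agent.R887
open Pool.Agent.W2helper38.NU

namespace Pool.Agent.Results.MP_97d78d_ag.TowersOverAnticanonical

/-- **Images of towers.** Let `K` be the function field of the first variety `V` of a tower of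
varieties of dimension `n ≥ 1` over a variety which is uniruled or dominated by a normal projective
variety with effective or trivial anticanonical `ℚ`-divisor, and let `V ⇢ X` be a dominant rational
map of degree `r`, `L` the function field of `X`. If the tower is one for `r` then `K_X` is
pseudo-effective if and only if `κ(X) ≥ 0`. If it is one for `2 r` and `K_X` is pseudo-effective then
`X` is of general type or `κ(X) = 0`; and for all normal projective models `y` of `L` with canonical
singularities and nef canonical divisor, the canonical divisor is big or torsion. -/
theorem result {n : ℕ} (hn : 1 ≤ n) {K : Type} [Field K] [Algebra ℂ K]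
    [Algebra.EssFiniteType ℂ K] (hK : Algebra.trdeg ℂ K = (n : ℕ))
    (L : Type) [Field L] [Algebra ℂ L] [Algebra L K] [IsScalarTower ℂ L K]
    [FiniteDimensional L K] :
    (Mixed n (fun E _ _ => Base n E) K (Module.finrank L K) →
      (Psef ℂ L n (fun _ => False) ↔ KodGe ℂ L n (fun _ => False) 0)) ∧
    (Mixed n (fun E _ _ => Base n E) K (2 * Module.finrank L K) →
      (Psef ℂ L n (fun _ => False) → GeneralType ℂ L n ∨
        (KodGe ℂ L n (fun _ => False) 0 ∧ ¬ KodGe ℂ L n (fun _ => False) 1)) ∧
      ∀ (N : ℕ) (y : Fin (N + 1) → L), NormalModel y → Canonical y n → CanonicalNef y n →
        GeneralType ℂ L n ∨ ∃ (M : ℕ) (Ω : (Fin n → Derivation ℂ L L) → L), 0 < M ∧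
          IsPluri M Ω ∧ ∀ P, IsPrimeDivisor y P → OrdEq P Ω 0) := by
  have hL : Algebra.trdeg ℂ L = (n : ℕ) := Pool.Agent.Y184.NT.trdeg_below (K := K) hK
  have hess : Algebra.EssFiniteType ℂ L := Pool.Agent.TH466.QG.ess_below (K := K)
  refine ⟨fun h => ⟨fun hp => ?_, psef_of_kodGe⟩, fun h => ?_⟩
  · by_cases hg : Pool.Agent.R882.HT.GenusZero L n
    · exact (kod_of_base hn hL ((mixed_aux hn (descends_base n) h hK L).1 rfl hg) hp).1
    · unfold Pool.Agent.R882.HT.GenusZero at hg
      push Not at hg
      obtain ⟨ω, hω, hreg, D, hD⟩ := hg
      exact ⟨1, one_pos, fun _ => ω, fun _ => ⟨hω, fun P hP D' hD' => hreg P hP D' fun i =>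
        reg_of_log (hD' i), fun P hP _ => hreg P hP⟩, D, hD, algebraicIndependent_empty_type⟩
  · have hdich : GeneralType ℂ L n ∨ Base n L := by
      by_cases hg : GeneralType ℂ L n
      · exact Or.inl hg
      · exact Or.inr ((mixed_aux hn (descends_base n) h hK L).2 rfl hg)
    refine ⟨fun hp => hdich.imp_right fun hb => kod_of_base hn hL hb hp,
      fun N y hy hcan hnef => hdich.imp_right fun hb => torsion_of_base hn hL hb hy hcan hnef⟩

end Pool.Agent.Results.MP_97d78d_ag.TowersOverAnticanonical
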