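import Pool.Agent.W2helper29.RK.Glue

/-!
# Abundance for the images of fibrations whose fibres have trivial canonical divisor

MP_97d78d_ag, Q1, for projective manifolds, in any dimension.

Let `V ⇢ X` be a dominant rational map of varieties over `ℂ` with irreducible general fibres of
dimension `g ≥ 1`, `m = dim X`, and let `V ⇢ W` be a dominant rational map of finite degree to a
variety `W` of dimension `n = m + g`. Nothing is assumed about this map: it need not be a quotient by
a group, and it has no relation to the fibration. Let `d` be the degree over `W` of the image of `V`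
in `W × X` (the number of points of `X` below a general fibre of `V ⇢ W`), and let `δ` be the degree
of a generically finite rational map from the generic fibre of `V ⇢ X` to the projective space. Suppose
that the canonical forms of `X` separate `max (2, δ) d` general points (for example, `X` is a smooth
hypersurface of degree at least `m + 1 + max (2, δ) d` in the projective space, `m ≥ 1`, or a point).
Then:

(1) `W` is a fibration too: there is a dominant rational map `W ⇢ Y` with irreducible general fibres
such that `V ⇢ W ⇢ Y` factors through a generically finite map `X ⇢ Y`, and `Y` is of general type.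

(2) Suppose moreover that the relative canonical divisor of `V ⇢ X` is trivial, or anti-effective, up
to multiples (`TrivialFibration`): some normal projective model `V_η` of the generic fibre, over the
function field of `X`, with arbitrary singularities, has an `r`-canonical form without zeros, `r ≥ 1`,
so `- r K_{V_η}` is effective or zero, whose product with the `r`-th power of every `m`-form with
logarithmic poles on a model of `X` has at most logarithmic poles on the models of `V`. Then `K_W` is
pseudo-effective if and only if `κ(W) ≥ 0`, if and only if `κ(W) ≥ m`, and always `κ(W) ≤ m`. If `W`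
is a normal projective variety with canonical singularities, for instance a projective manifold, and
`K_W` is nef, then `κ(W) = m`, `W ⇢ Y` is the Iitaka fibration, and the pluricanonical forms of `W` have
no zeros along the prime divisors of `W` which dominate `Y`: the canonical divisor of the generic
fibre is torsion. So `K_W` is semiample (Kawamata, Lai: the general fibres of the Iitaka fibration are
good minimal models; this is not part of the Lean proof).

(3) The conditions of (2) hold if `V = X × F` with a normal projective variety `F` of dimension `g`,
with arbitrary singularities, which has an `r`-canonical form without zeros whose poles are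
logarithmic over `F`, i.e. `(F, Δ)` is log canonical and `r (K_F + Δ) ~ 0` for some `Δ ≥ 0`: for
instance an abelian variety, a Calabi-Yau variety, a hyperkähler manifold, or a product of such
varieties; `δ` is the degree of a generically finite rational map from `F` to the projective space.

Some condition on the points is necessary in (1): a Kummer surface `W = (X × F) / {± 1}` with elliptic
curves `X` and `F` (`d = 2`, and one point is separated) has no fibration over a curve of general type.

Proof. Consider a conjugate over `ℂ(W)` of the function field of `X`. Restricted to a line in the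
general fibre `F` of `V ⇢ X`, or rather to its preimage under the map of degree `δ` to the projective
space, it is a correspondence of degree at most `δ d` of a rational curve with `X` over the algebraic
closure of the function field of the remaining coordinates; since the canonical forms of `X` separate
the `δ d` points and the sum of the pull-backs of a form under the conjugates is a regular form on the
line, it is constant (`Pool/Agent/{N145,N438,N281}/SX`). So the functions on `X` which are invariant
under conjugation have the full transcendence degree: this is `Y` (`Rigid`). Traces of canonical forms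
separate two points of `Y`, so `Y` is of general type (`Pool/Agent/N277/SX`).

Let `ω` be an `M`-canonical form on `W` with poles bounded by an ample divisor (or regular). Then
`(f^* ω)^r / η^M` is a rational function on `V_η` with poles bounded by the pull-back of the ample
divisor; this and its converse (`Pool/Agent/W2helper38/NU`, here over the function field of `X`: `Loc`,
`Bd`, `Hor`) give the inequality between the order of `η` and the ramification of `V ⇢ W` at the
horizontal divisors if `K_W` is pseudo-effective, and if `K_W` is nef the opposite one. For the lower
bound of `κ(W)` let `β` be a pluricanonical form on `Y`. The products of the pull-back of `β` to `X`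
with a power of `η` are forms on `V` which are regular enough over the horizontal divisors, by the
inequality, and over the vertical ones because the pull-backs of logarithmic forms of `Y` to `X` are
logarithmic; their norms are pluricanonical forms on `W`, with `m` independent ratios (`Vert`, `Kod`).
The base change of a normal variety to `ℂ(X)` is normal (`Prod3`), its prime divisors lie over prime
divisors or over the generic point of `F`, and the product of `η` with the coordinates of `X` has
logarithmic poles (`Prod4`, `Prod5`).

`K`, `L`, `B`, `N` are the function fields of `V`, `W`, `X`, `Y`. `Psef ℂ L n ∅` says that `K_W` is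
pseudo-effective, `KodGe ℂ L n ∅ h` that `κ(W) ≥ h` and `GeneralType` that `κ = dim`
(`Pool/Agent/W602/GT`), for the smooth projective models of `W`. `Pool.Agent.Y172.NormalModel y`,
`Canonical y n`, `CanonicalNef y n`: `y` is the generic point of a normal projective variety with
canonical singularities and nef canonical divisor (`Pool/Agent/Y172/Defs.lean`, `Pool/Agent/R887`);
`NormalModel B z`, `IsPrimeDivisor` are the same over the field `B`
(`Pool/Agent/W2helper29/RK/Defs.lean`).
-/

set_option autoImplicit false
set_option linter.overlappingInstances false
set_option maxHeartbeats 4000000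
set_option synthInstance.maxHeartbeats 400000

open FF Module Pool.Agent.W602.GT Pool.Agent.R887 Pool.Agent.W2helper29.RK
open Pool.Agent.Y172 (OrdEq exists_crd)

namespace Pool.Agent.Results.MP_97d78d_ag.TrivialFibrations

/-- **The canonical forms separate `r` general points** of the varieties of dimension `m` with
function field `E`. The embeddings `σ : E → Ω` are the generic points of `X` with coordinates in the
field `Ω`, and `D` is a rational frame of the tangent bundle. At most `r` different such points impose
independent conditions on the canonical forms `ω` which are regular at all prime divisors. -/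
def SeparatesPoints (E : Type) [Field E] [Algebra ℂ E] (m r : ℕ) : Prop :=
  ∀ D : Fin m → Derivation ℂ E E, LinearIndependent E D →
    ∀ (Ω : Type) [Field Ω] [Algebra ℂ Ω] [IsAlgClosed Ω] (A : Finset (E →ₐ[ℂ] Ω)), A.card ≤ r →
    ∀ c : (E →ₐ[ℂ] Ω) → Ω,
    (∀ ω : (Fin m → Derivation ℂ E E) → E, IsPluri 1 ω →
      (∀ P : Place ℂ E, Divisorial m P → RegAt P ω) → ∑ σ ∈ A, c σ * σ (ω D) = 0) →
    ∀ σ ∈ A, c σ = 0

/-- The varieties over the field `k` with function field `K`, of dimension `g`, have a dominant
rational map of degree at most `δ` to the projective space. -/
def IrrationalityLe (k K : Type) [Field k] [Field K] [Algebra k K] (g δ : ℕ) : Prop :=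
  ∃ u : Fin g → K, IsTranscendenceBasis k u ∧
    finrank (IntermediateField.adjoin k (Set.range u)) K ≤ δ

section

variable {K : Type} [Field K] [Algebra ℂ K]

/-- The degree over `W` of the image of `V` in `W × X`. Here `K`, `L` and `B` are the function fields
of `V`, `W` and `X`. -/
noncomputable def imageDegree (B : IntermediateField ℂ K) (L : Type) [Field L] [Algebra L K] : ℕ :=
  finrank L (IntermediateField.adjoin L (B : Set K))

/-- **Fibrations `V ⇢ X` with trivial or anti-effective relative canonical divisor**, up to multiples.
`z` is the generic point of a normal projective model of the generic fibre over the function field `B`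
of `X`, `m = dim X`, and `η` is an `r`-canonical form on `V`, `r ≥ 1`, without zeros at the prime
divisors of this model. For every `m`-form `ω = f dx` with a logarithmic pole at a prime divisor `P`
over `X` the product of `f ^ r` and `η` (so, of `ω ^ r` and the relative form `η / dx ^ r`) has at most
logarithmic poles at the prime divisors over `P`. -/
structure TrivialFibration (B : IntermediateField ℂ K) (m g r : ℕ) {t : ℕ} (z : Fin (t + 1) → K)
    (η : (Fin (m + g) → Derivation ℂ K K) → K) : Prop where
  model : NormalModel B z
  pos : 0 < r
  pluri : IsPluri r η
  noZero : ∀ Q : Place B K, IsPrimeDivisor z Q → NoZeroAt (down Q) η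
  vert : ∃ x : Fin m → B, IsTranscendenceBasis ℂ x ∧
    ∀ (P : Place ℂ B) (Q : Place ℂ K) (e : ℕ), Over Q P e → Divisorial m P →
      Divisorial (m + g) Q → ∀ f : B, LogAt P (detForm x f) →
        LogAt Q (fun D => algebraMap B K f ^ r * η D)

/-- `z` is the generic point of a normal projective variety `F` of dimension `g` with function field
`C`, and `θ` is an `r`-canonical form, `r ≥ 1`, without zeros at the prime divisors of `F` and with at
most logarithmic poles at the prime divisors over `F`. That is, for the effective `ℚ`-divisor
`Δ = - div (θ) / r` the pair `(F, Δ)` is log canonical and `r (K_F + Δ)` is trivial. -/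
structure LogCalabiYau {C : Type} [Field C] [Algebra ℂ C] (g r : ℕ) {t : ℕ} (z : Fin (t + 1) → C)
    (θ : (Fin g → Derivation ℂ C C) → C) : Prop where
  model : Pool.Agent.Y172.NormalModel z
  pos : 0 < r
  pluri : IsPluri r θ
  ne : ∃ D, θ D ≠ 0
  noZero : ∀ P : Place ℂ C, Pool.Agent.Y172.IsPrimeDivisor z P → NoZeroAt P θ
  log : ∀ P : Place ℂ C, Divisorial g P → LogAt P θ

/-- The subfield `N` of `L` is the function field of a variety `Y` of general type of dimension `m`, of
which `X` is a covering: `W ⇢ Y` has irreducible general fibres, and `V ⇢ W ⇢ Y` factors through a
generically finite rational map `X ⇢ Y`. Here `K`, `L` and `B` are the function fields of `V`, `W`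
and `X`. -/
def IsImage (B : IntermediateField ℂ K) {L : Type} [Field L] [Algebra ℂ L] [Algebra L K]
    [IsScalarTower ℂ L K] (N : IntermediateField ℂ L) (m : ℕ) : Prop :=
  (∀ z : L, IsAlgebraic N z → z ∈ N) ∧ (∀ z : L, z ∈ N ↔ algebraMap L K z ∈ B) ∧
    (∀ z ∈ B, IsAlgebraic N z) ∧ GeneralType ℂ N m

end

/-- **Abundance** for the varieties `W` of dimension `n` with function field `L`, the Iitaka fibration
being `W ⇢ Y` with a variety `Y` of dimension `m` with function field `N`: `K_W` is pseudo-effective if
and only if `κ(W) ≥ 0`, if and only if `κ(W) ≥ m`, and `κ(W) ≤ m`; the ratios of pluricanonical forms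
are functions on `Y`. If `y` is the generic point of a normal projective model with canonical
singularities and nef canonical divisor then `κ(W) = m`, and the pluricanonical forms `Ω ≠ 0` have no
zeros at the prime divisors which dominate `Y`. -/
def Abundance (L : Type) [Field L] [Algebra ℂ L] (N : IntermediateField ℂ L) (n m : ℕ) : Prop :=
  [Psef ℂ L n (fun _ => False), KodGe ℂ L n (fun _ => False) 0,
    KodGe ℂ L n (fun _ => False) m].TFAE ∧ ¬ KodGe ℂ L n (fun _ => False) (m + 1) ∧
  (∀ (M : ℕ) (Ω Ω' : (Fin n → Derivation ℂ L L) → L), IsPluri M Ω → IsPluri M Ω' →
    (∀ P : Place ℂ L, Divisorial n P → RegAt P Ω ∧ RegAt P Ω') →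
    ∀ D, Ω' D ≠ 0 → Ω D / Ω' D ∈ N) ∧
  ∀ (s : ℕ) (y : Fin (s + 1) → L), Pool.Agent.Y172.NormalModel y → Canonical y n →
    CanonicalNef y n → KodGe ℂ L n (fun _ => False) m ∧
    ∀ (M : ℕ) (Ω : (Fin n → Derivation ℂ L L) → L), IsPluri M Ω →
      (∀ P : Place ℂ L, Divisorial n P → RegAt P Ω) → (∃ D, Ω D ≠ 0) →
      ∀ P : Place ℂ L, Pool.Agent.Y172.IsPrimeDivisor y P →
        (∀ c : N, c ≠ 0 → P.ord (c : L) = 0) → OrdEq P Ω 0

/-- **Images of fibrations and of products.** Let `K`, `B` and `L` be the function fields of varieties
`V`, `X` and `W`, with dominant rational maps `V ⇢ X`, with fibres of dimension `g ≥ 1`, and `V ⇢ W`,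
of finite degree, `m = dim X`. Let `d` be the degree over `W` of the image of `V` in `W × X`, and
suppose that the canonical forms of `X` separate `max (2, δ) d` general points.

(1), (2) If the generic fibre of `V ⇢ X` is geometrically irreducible and has a rational map of
degree at most `δ` to the projective space then there is a fibration `W ⇢ Y` over a variety of general
type of dimension `m` which is dominated by `X`; and if the relative canonical divisor of `V ⇢ X` is
trivial or anti-effective then abundance holds for `W`, with the Iitaka fibration `W ⇢ Y`.

(3) The same holds if `V = X × F` with a log Calabi-Yau variety `F` of dimension `g` which has a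
rational map of degree at most `δ` to the projective space. -/
theorem result {K : Type} [Field K] [Algebra ℂ K] [Algebra.EssFiniteType ℂ K]
    (B : IntermediateField ℂ K) [Algebra.EssFiniteType ℂ B] {m g δ : ℕ}
    (hB : Algebra.trdeg ℂ B = m) (hg : 1 ≤ g) (L : Type) [Field L] [Algebra ℂ L] [Algebra L K]
    [IsScalarTower ℂ L K] [FiniteDimensional L K]
    (hX : SeparatesPoints B m (max 2 δ * imageDegree B L)) :
    ((∀ z : K, IsAlgebraic B z → z ∈ B) → IrrationalityLe B K g δ →
      ∃ N : IntermediateField ℂ L, IsImage B N m ∧
        ∀ (t r : ℕ) (z : Fin (t + 1) → K) (η : (Fin (m + g) → Derivation ℂ K K) → K),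
          TrivialFibration B m g r z η → Abundance L N (m + g) m) ∧
    ∀ (C : IntermediateField ℂ K) (t r : ℕ) (z : Fin (t + 1) → C)
      (θ : (Fin g → Derivation ℂ C C) → C), B ⊔ C = ⊤ → B.LinearDisjoint C →
      Algebra.trdeg ℂ C = g → IrrationalityLe ℂ C g δ → LogCalabiYau g r z θ →
        ∃ N : IntermediateField ℂ L, IsImage B N m ∧ Abundance L N (m + g) m := by
  have h1 : δ * imageDegree B L ≤ max 2 δ * imageDegree B L :=
    Nat.mul_le_mul_right _ (le_max_right _ _)
  have h2 : 2 * imageDegree B L ≤ max 2 δ * imageDegree B L :=
    Nat.mul_le_mul_right _ (le_max_left _ _)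
  have main : (∀ z : K, IsAlgebraic B z → z ∈ B) → IrrationalityLe B K g δ →
      ∃ N : IntermediateField ℂ L, IsImage B N m ∧
        ∀ (t r : ℕ) (z : Fin (t + 1) → K) (η : (Fin (m + g) → Derivation ℂ K K) → K),
          TrivialFibration B m g r z η → Abundance L N (m + g) m := by
    intro hcl hδ
    obtain ⟨hK, hgK, N, hN1, hN2, hN3, hN4, hN5⟩ := main_struct (L := L) (n := m + g) rfl hB hg hcl
      hδ hX h1 h2
    refine ⟨N, ⟨hN1, hN2, hN3, hN4, ?_⟩, fun t r z η h => ?_⟩
    · obtain ⟨M, hM, ω, hω, hD⟩ := hN5
      exact ⟨M, hM, ω, fun j => (hω j).1, fun P hP j => (hω j).2.2 P hP fun h => h, hD⟩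
    · obtain ⟨x, hx, hv⟩ := h.vert
      exact main_fib rfl h.model hB hgK hg hK hcl hx h.pluri h.pos h.noZero hv
        hN2 hN3 hN4 hN5
  refine ⟨main, fun C t r z θ hsup hdis hC hδ h => ?_⟩
  have hessC : Algebra.EssFiniteType ℂ C := h.model.ess
  obtain ⟨v, hv, hvδ⟩ := hδ
  obtain ⟨u, hu, huδ⟩ := irr_prod hsup hdis hv
  obtain ⟨N, hN, hab⟩ := main (closed_prod hsup hdis hB hC) ⟨u, hu, huδ.trans hvδ⟩
  obtain ⟨x, Dx, hx, hDx⟩ := exists_crd hB
  obtain ⟨y, Dy, hy, hDy⟩ := exists_crd hC
  have hK : Algebra.trdeg ℂ K = (m + g : ℕ) := by
    have h3 := trdeg_add_eq ℂ B (A := K)
    rw [hB, ← (basis_over hsup hdis hy).cardinalMk_eq_trdeg, Cardinal.mk_fin] at h3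
    rw [← h3]
    push_cast
    rfl
  exact ⟨N, hN, hab t r _ (prodForm r x y (θ Dy))
    { model := model_prod hsup hdis hB hC h.model
      pos := h.pos
      pluri := prodForm_pluri x y (θ Dy)
      noZero := fun Q hQ => noZero_prod hsup hdis hx hDx hy hDy h.pluri h.ne h.noZero hQ
      vert := ⟨x, hx, fun P Q e hQP hP hQ f hf =>
        vert_prod hsup hdis hB hC hK hy hDy h.pluri h.log hQP hP hQ hf⟩ }⟩

end Pool.Agent.Results.MP_97d78d_ag.TrivialFibrations
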